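import Mathlib

set_option autoImplicit false
set_option linter.unusedSectionVars false

/-!
# A permanent inequality for positive semidefinite matrices fails

Let `A` be the matrix `J + 17 ∑ (e_a - e_b) (e_a - e_b)ᵀ` of size `41`, where `J` is the all-ones
matrix and the sum runs over `20` disjoint pairs of indices `a`, `b` different from the first index.
Then `∑_{k ≠ 1} |a_{1k}|² per (B_kk) > per A`.

The permanents are computed exactly. For a matrix on `N` points of the form
`J + l ∑ (e_a - e_b) (e_a - e_b)ᵀ + m e_c e_cᵀ` with `G` pairs and a further point `c`, the permanent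
is `∑_j (G choose j) (2 l²)^j ((N - 2 j)! + m (N - 1 - 2 j)!)` (`permanent_eq`).
-/

namespace Pool.Agent.Results.MP_395ab6_co.NotDominated

open Finset Equiv
open scoped ComplexOrder

section core

variable {n Γ : Type} [Fintype n] [DecidableEq n] [Fintype Γ] [DecidableEq Γ]

/-- The vector `e_a - e_b` for the pair `a = ψ (some (g, false))`, `b = ψ (some (g, true))`. -/
def dl (ψ : Option (Γ × Bool) → n) (g : Γ) (x : n) : ℤ :=
  (if x = ψ (some (g, false)) then 1 else 0) - (if x = ψ (some (g, true)) then 1 else 0)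

/-- `M = J + l ∑ (e_a - e_b) (e_a - e_b)ᵀ + m e_c e_cᵀ` -/
structure IsPair (ψ : Option (Γ × Bool) → n) (l m : ℤ) (M : Matrix n n ℤ) : Prop where
  inj : Function.Injective ψ
  h1 : ∀ x g, M x (ψ (some (g, false))) = 1 + l * dl ψ g x
  h2 : ∀ x g, M x (ψ (some (g, true))) = 1 - l * dl ψ g x
  h3 : ∀ x, M x (ψ none) = 1 + if x = ψ none then m else 0
  h4 : ∀ x y, y ∉ Set.range ψ → M x y = 1

variable {ψ : Option (Γ × Bool) → n} {l m : ℤ} {M : Matrix n n ℤ}

theorem dl_false (hψ : Function.Injective ψ) (g h : Γ) :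
    dl ψ g (ψ (some (h, false))) = if g = h then 1 else 0 := by
  unfold dl
  by_cases e : g = h
  · subst e
    rw [if_pos rfl, if_neg (fun h => by simpa using hψ h), if_pos rfl, sub_zero]
  · rw [if_neg (fun h' => e (by have := hψ h'; simp at this; exact this.symm)),
      if_neg (fun h' => by simpa using hψ h'), if_neg e, sub_zero]

theorem dl_true (hψ : Function.Injective ψ) (g h : Γ) :
    dl ψ g (ψ (some (h, true))) = if g = h then -1 else 0 := by
  unfold dl
  by_cases e : g = h
  · subst e
    rw [if_neg (fun h => by simpa using hψ h), if_pos rfl, if_pos rfl, zero_sub]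
  · rw [if_neg (fun h' => by simpa using hψ h'),
      if_neg (fun h' => e (by have := hψ h'; simp at this; exact this.symm)), if_neg e, sub_zero]

theorem dl_none (hψ : Function.Injective ψ) (g : Γ) : dl ψ g (ψ none) = 0 := by
  unfold dl
  rw [if_neg (fun h => by simpa using hψ h), if_neg (fun h => by simpa using hψ h), sub_zero]

/-- the transposition of a pair -/
def tau (ψ : Option (Γ × Bool) → n) (g : Γ) : Perm n :=
  swap (ψ (some (g, false))) (ψ (some (g, true)))

theorem dl_tau_ne (hψ : Function.Injective ψ) {g h : Γ} (hgh : h ≠ g) (x : n) :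
    dl ψ h (tau ψ g x) = dl ψ h x := by
  unfold tau
  by_cases h1 : x = ψ (some (g, false))
  · subst h1
    rw [swap_apply_left, dl_true hψ, dl_false hψ, if_neg hgh, if_neg hgh]
  by_cases h2 : x = ψ (some (g, true))
  · subst h2
    rw [swap_apply_right, dl_true hψ, dl_false hψ, if_neg hgh, if_neg hgh]
  rw [swap_apply_of_ne_of_ne h1 h2]

theorem dl_tau (hψ : Function.Injective ψ) (g : Γ) (x : n) :
    dl ψ g (tau ψ g x) = - dl ψ g x := by
  unfold tau
  by_cases h1 : x = ψ (some (g, false))
  · subst h1
    rw [swap_apply_left, dl_true hψ, dl_false hψ, if_pos rfl, if_pos rfl]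
  by_cases h2 : x = ψ (some (g, true))
  · subst h2
    rw [swap_apply_right, dl_true hψ, dl_false hψ, if_pos rfl, if_pos rfl, neg_neg]
  rw [swap_apply_of_ne_of_ne h1 h2]
  unfold dl
  rw [if_neg h1, if_neg h2]
  rfl

theorem tau_none (hψ : Function.Injective ψ) (g : Γ) (x : n) :
    tau ψ g x = ψ none ↔ x = ψ none := by
  unfold tau
  constructor
  · intro h
    have h1 := congrArg (swap (ψ (some (g, false))) (ψ (some (g, true)))) h
    rw [swap_apply_self, swap_apply_of_ne_of_ne (fun h => by simpa using hψ h)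
      (fun h => by simpa using hψ h)] at h1
    exact h1
  · rintro rfl
    exact swap_apply_of_ne_of_ne (fun h => by simpa using hψ h) (fun h => by simpa using hψ h)

/-- contribution of the point `c` -/
def cc (ψ : Option (Γ × Bool) → n) (m : ℤ) (σ : Perm n) : ℤ :=
  1 + if σ (ψ none) = ψ none then m else 0

/-- contribution of a pair -/
def X (ψ : Option (Γ × Bool) → n) (l : ℤ) (g : Γ) (σ : Perm n) : ℤ :=
  (1 + l * dl ψ g (σ (ψ (some (g, false))))) * (1 - l * dl ψ g (σ (ψ (some (g, true)))))

/-- `1` if the pair is preserved and `0` otherwise -/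
def z (ψ : Option (Γ × Bool) → n) (g : Γ) (σ : Perm n) : ℤ :=
  - (dl ψ g (σ (ψ (some (g, false)))) * dl ψ g (σ (ψ (some (g, true)))))

theorem prod_eq (h : IsPair ψ l m M) (σ : Perm n) :
    ∏ i, M (σ i) i = cc ψ m σ * ∏ g, X ψ l g σ := by
  rw [← Fintype.prod_of_injective ψ h.inj (fun w => M (σ (ψ w)) (ψ w)) (fun i => M (σ i) i)
    (fun i hi => h.h4 _ _ hi) (fun _ => rfl), Fintype.prod_option, h.h3, Fintype.prod_prod_type]
  congr 1
  apply Finset.prod_congr rfl
  intro g _
  rw [Fintype.prod_bool, h.h1, h.h2, mul_comm]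
  rfl

/-- the mixed product -/
def R (ψ : Option (Γ × Bool) → n) (l m : ℤ) (s : Finset Γ) (σ : Perm n) : ℤ :=
  cc ψ m σ * ((∏ g ∈ s, (1 + l ^ 2 * z ψ g σ)) * ∏ g ∈ univ \ s, X ψ l g σ)

theorem z_tau (hψ : Function.Injective ψ) (g h : Γ) (σ : Perm n) :
    z ψ h (tau ψ g * σ) = z ψ h σ := by
  unfold z
  rw [Perm.mul_apply, Perm.mul_apply]
  by_cases e : h = g
  · subst e
    rw [dl_tau hψ, dl_tau hψ, neg_mul_neg]
  · rw [dl_tau_ne hψ e, dl_tau_ne hψ e]

theorem X_tau (hψ : Function.Injective ψ) {g h : Γ} (e : h ≠ g) (σ : Perm n) :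
    X ψ l h (tau ψ g * σ) = X ψ l h σ := by
  unfold X
  rw [Perm.mul_apply, Perm.mul_apply, dl_tau_ne hψ e, dl_tau_ne hψ e]

theorem cc_tau (hψ : Function.Injective ψ) (g : Γ) (σ : Perm n) :
    cc ψ m (tau ψ g * σ) = cc ψ m σ := by
  unfold cc
  rw [Perm.mul_apply]
  simp only [tau_none hψ]

theorem sum_R_insert (hψ : Function.Injective ψ) {s : Finset Γ} {g : Γ} (hg : g ∉ s) :
    ∑ σ, R ψ l m (insert g s) σ = ∑ σ, R ψ l m s σ := by
  obtain ⟨K, hK⟩ : ∃ K : Perm n → ℤ, K = fun σ => cc ψ m σ *
      ((∏ h ∈ s, (1 + l ^ 2 * z ψ h σ)) * ∏ h ∈ univ \ insert g s, X ψ l h σ) := ⟨_, rfl⟩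
  have hK' : ∀ σ, K (tau ψ g * σ) = K σ := by
    intro σ
    rw [hK]
    dsimp only
    rw [cc_tau hψ]
    congr 2
    · exact Finset.prod_congr rfl fun h _ => by rw [z_tau hψ]
    · refine Finset.prod_congr rfl fun h hh => X_tau hψ ?_ σ
      rintro rfl
      simp at hh
  obtain ⟨Y, hY⟩ : ∃ Y : Perm n → ℤ, Y = fun σ =>
      dl ψ g (σ (ψ (some (g, false)))) - dl ψ g (σ (ψ (some (g, true)))) := ⟨_, rfl⟩
  have hY' : ∀ σ, Y (tau ψ g * σ) = - Y σ := by
    intro σ
    rw [hY]
    dsimp only
    rw [Perm.mul_apply, Perm.mul_apply, dl_tau hψ, dl_tau hψ]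
    ring
  have hT : ∑ σ, K σ * Y σ = 0 := by
    have h1 : ∑ σ, K σ * Y σ = - ∑ σ, K σ * Y σ := by
      rw [← Finset.sum_neg_distrib]
      rw [← Equiv.sum_comp (Equiv.mulLeft (tau ψ g))]
      apply Finset.sum_congr rfl
      intro σ _
      rw [Equiv.coe_mulLeft, hK', hY']
      ring
    omega
  have h1 : ∀ σ, R ψ l m (insert g s) σ = K σ * (1 + l ^ 2 * z ψ g σ) := by
    intro σ
    rw [hK]
    unfold R
    rw [Finset.prod_insert hg]
    ring
  have h2 : ∀ σ, R ψ l m s σ = K σ * X ψ l g σ := by
    intro σ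
    rw [hK]
    unfold R
    have h3 : univ \ s = insert g (univ \ insert g s) := by
      ext h
      simp only [Finset.mem_sdiff, Finset.mem_univ, true_and, Finset.mem_insert, not_or]
      constructor
      · intro h4
        by_cases h5 : h = g
        · exact Or.inl h5
        · exact Or.inr ⟨h5, h4⟩
      · rintro (rfl | h4)
        · exact hg
        · exact h4.2
    rw [h3, Finset.prod_insert (by simp)]
    ring
  have h3 : ∀ σ, R ψ l m s σ = R ψ l m (insert g s) σ + l * (K σ * Y σ) := by
    intro σ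
    rw [h1, h2, hY]
    unfold X z
    ring
  simp only [h3]
  rw [Finset.sum_add_distrib, ← Finset.mul_sum, hT, mul_zero, add_zero]

theorem sum_R (hψ : Function.Injective ψ) (s : Finset Γ) :
    ∑ σ, R ψ l m s σ = ∑ σ, R ψ l m ∅ σ := by
  induction s using Finset.induction_on with
  | empty => rfl
  | insert g s hg ih => rw [sum_R_insert hψ hg, ih]

theorem perm_step (h : IsPair ψ l m M) :
    M.permanent = ∑ σ, cc ψ m σ * ∏ g, (1 + l ^ 2 * z ψ g σ) := by
  have h1 : M.permanent = ∑ σ, R ψ l m ∅ σ := by
    unfold Matrix.permanent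
    apply Finset.sum_congr rfl
    intro σ _
    rw [prod_eq h]
    unfold R
    rw [Finset.prod_empty, one_mul, Finset.sdiff_empty]
  rw [h1, ← sum_R h.inj univ]
  apply Finset.sum_congr rfl
  intro σ _
  unfold R
  rw [Finset.sdiff_self, Finset.prod_empty, mul_one]

/-! ### Counting permutations -/

/-- The permutation preserves the pair `g`. -/
def Keeps (ψ : Option (Γ × Bool) → n) (g : Γ) (σ : Perm n) : Prop :=
  (σ (ψ (some (g, false))) = ψ (some (g, false)) ∨ σ (ψ (some (g, false))) = ψ (some (g, true))) ∧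
  (σ (ψ (some (g, true))) = ψ (some (g, false)) ∨ σ (ψ (some (g, true))) = ψ (some (g, true)))

instance (ψ : Option (Γ × Bool) → n) (g : Γ) (σ : Perm n) : Decidable (Keeps ψ g σ) :=
  inferInstanceAs (Decidable (_ ∧ _))

theorem z_eq (hψ : Function.Injective ψ) (g : Γ) (σ : Perm n) :
    z ψ g σ = if Keeps ψ g σ then 1 else 0 := by
  have hne : ψ (some (g, false)) ≠ ψ (some (g, true)) := fun h => by simpa using hψ h
  have hσ : σ (ψ (some (g, false))) ≠ σ (ψ (some (g, true))) := fun h => hne (σ.injective h)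
  unfold z Keeps dl
  by_cases h1 : σ (ψ (some (g, false))) = ψ (some (g, false))
  · by_cases h2 : σ (ψ (some (g, true))) = ψ (some (g, false))
    · exact absurd (h1.trans h2.symm) hσ
    · by_cases h3 : σ (ψ (some (g, true))) = ψ (some (g, true))
      · simp [h1, h3, hne, hne.symm]
      · simp [h1, h2, h3]
  · by_cases h2 : σ (ψ (some (g, false))) = ψ (some (g, true))
    · by_cases h3 : σ (ψ (some (g, true))) = ψ (some (g, true))
      · exact absurd (h2.trans h3.symm) hσ
      · by_cases h4 : σ (ψ (some (g, true))) = ψ (some (g, false))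
        · simp [h2, h4, hne, hne.symm]
        · simp [h3, h4]
    · simp [h1, h2]

/-- class of a point of the index set -/
def cls (w : Option (Γ × Bool)) : Option Γ := w.map Prod.fst

open Classical in
/-- label of a point of `n`, where the classes outside `t` are ignored -/
noncomputable def lab (ψ : Option (Γ × Bool) → n) (t : Finset (Option Γ)) (x : n) :
    Option (Option Γ) :=
  match Function.partialInv ψ x with
  | some w => if cls w ∈ t then some (cls w) else none
  | none => none

theorem lab_some (hψ : Function.Injective ψ) (t : Finset (Option Γ)) (x : n) (d : Option Γ) :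
    lab ψ t x = some d ↔ d ∈ t ∧ ∃ w, ψ w = x ∧ cls w = d := by
  have hp := hψ.isPartialInv
  unfold lab
  rcases hx : Function.partialInv ψ x with _ | w
  · simp only [reduceCtorEq, false_iff, not_and, not_exists]
    intro _ w h1
    rw [(hp w x).2 h1] at hx
    exact absurd hx (by simp)
  · have hw := (hp w x).1 hx
    dsimp only
    constructor
    · intro h1
      by_cases h2 : cls w ∈ t
      · rw [if_pos h2] at h1
        have h3 : cls w = d := Option.some_injective _ h1
        exact ⟨h3 ▸ h2, w, hw, h3⟩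
      · rw [if_neg h2] at h1
        exact absurd h1 (by simp)
    · rintro ⟨h1, w', h2, h3⟩
      have h4 : w' = w := hψ (h2.trans hw.symm)
      subst h4
      rw [h3, if_pos h1]

/-- the size of a class -/
def sz : Option Γ → ℕ
  | none => 1
  | some _ => 2

theorem card_cls (d : Option Γ) :
    (univ.filter fun w : Option (Γ × Bool) => cls w = d).card = sz d := by
  rcases d with _ | g
  · have : (univ.filter fun w : Option (Γ × Bool) => cls w = none) = {none} := by
      ext w
      rcases w with _ | ⟨h, b⟩ <;> simp [cls]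
    rw [this]
    rfl
  · have : (univ.filter fun w : Option (Γ × Bool) => cls w = some g) =
        {some (g, false), some (g, true)} := by
      ext w
      rcases w with _ | ⟨h, b⟩
      · simp [cls]
      · cases b <;> simp [cls]
    rw [this]
    exact Finset.card_pair (by simp)

open Classical in
theorem card_lab_some (hψ : Function.Injective ψ) (t : Finset (Option Γ)) (d : Option Γ) :
    (univ.filter fun x : n => lab ψ t x = some d).card = if d ∈ t then sz d else 0 := by
  by_cases hd : d ∈ t
  · rw [if_pos hd, ← card_cls d]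
    have : (univ.filter fun x : n => lab ψ t x = some d) =
        (univ.filter fun w : Option (Γ × Bool) => cls w = d).image ψ := by
      ext x
      simp only [Finset.mem_filter, Finset.mem_univ, true_and, Finset.mem_image, lab_some hψ]
      constructor
      · rintro ⟨-, w, h1, h2⟩
        exact ⟨w, h2, h1⟩
      · rintro ⟨w, h2, h1⟩
        exact ⟨hd, w, h1, h2⟩
    rw [this, Finset.card_image_of_injective _ hψ]
  · rw [if_neg hd, Finset.card_eq_zero, Finset.filter_eq_empty_iff]
    intro x _ h
    exact hd ((lab_some hψ t x d).1 h).1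

theorem card_lab_none (hψ : Function.Injective ψ) (t : Finset (Option Γ)) :
    (univ.filter fun x : n => lab ψ t x = none).card = Fintype.card n - ∑ d ∈ t, sz d := by
  classical
  have h1 : Fintype.card n = ∑ i : Option (Option Γ), (univ.filter fun x : n => lab ψ t x = i).card := by
    rw [← Finset.card_univ]
    exact Finset.card_eq_sum_card_fiberwise (fun x _ => Finset.mem_univ _)
  rw [Fintype.sum_option] at h1
  have h2 : ∑ d : Option Γ, (univ.filter fun x : n => lab ψ t x = some d).card = ∑ d ∈ t, sz d := by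
    simp only [card_lab_some hψ]
    rw [Finset.sum_ite_mem, Finset.univ_inter]
  omega

theorem count (hψ : Function.Injective ψ) (t : Finset (Option Γ)) :
    (univ.filter fun σ : Perm n => lab ψ t ∘ σ = lab ψ t).card =
      (Fintype.card n - ∑ d ∈ t, sz d).factorial * ∏ d ∈ t, (sz d).factorial := by
  classical
  rw [← Fintype.card_subtype, DomMulAct.stabilizer_card]
  rw [Fintype.prod_option]
  congr 1
  · rw [Fintype.card_subtype, card_lab_none hψ]
  · simp only [Fintype.card_subtype, card_lab_some hψ]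
    have h1 : ∀ d : Option Γ, (if d ∈ t then sz d else 0).factorial =
        if d ∈ t then (sz d).factorial else 1 := by
      intro d
      split_ifs <;> rfl
    simp only [h1]
    rw [Finset.prod_ite_mem, Finset.univ_inter]

/-- preserving the labels means preserving the classes -/
theorem lab_iff (hψ : Function.Injective ψ) (t : Finset (Option Γ)) (σ : Perm n) :
    lab ψ t ∘ σ = lab ψ t ↔ ∀ d ∈ t, ∀ w, cls w = d → ∃ w', ψ w' = σ (ψ w) ∧ cls w' = d := by
  constructor
  · intro h d hd w hw
    have h1 : lab ψ t (ψ w) = some d := (lab_some hψ t _ _).2 ⟨hd, w, rfl, hw⟩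
    have h2 : lab ψ t (σ (ψ w)) = some d := (congrFun h (ψ w)).trans h1
    exact ((lab_some hψ t _ _).1 h2).2
  · intro h
    have key : ∀ x d, lab ψ t x = some d → lab ψ t (σ x) = some d := by
      intro x d hx
      obtain ⟨hd, w, rfl, hw⟩ := (lab_some hψ t _ _).1 hx
      obtain ⟨w', h1, h2⟩ := h d hd w hw
      exact (lab_some hψ t _ _).2 ⟨hd, w', h1, h2⟩
    -- the same for the inverse, because the classes are finite
    have key2 : ∀ x d, lab ψ t (σ x) = some d → lab ψ t x = some d := by
      intro x d hx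
      classical
      have hsub : (univ.filter fun x : n => lab ψ t x = some d).image σ ⊆
          (univ.filter fun x : n => lab ψ t x = some d) := by
        intro y hy
        obtain ⟨x', hx', rfl⟩ := Finset.mem_image.1 hy
        rw [Finset.mem_filter] at hx' ⊢
        exact ⟨Finset.mem_univ _, key _ _ hx'.2⟩
      have heq := Finset.eq_of_subset_of_card_le hsub (by
        rw [Finset.card_image_of_injective _ σ.injective])
      have h1 : σ x ∈ (univ.filter fun x : n => lab ψ t x = some d).image σ := by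
        rw [heq, Finset.mem_filter]
        exact ⟨Finset.mem_univ _, hx⟩
      obtain ⟨x', hx', h2⟩ := Finset.mem_image.1 h1
      rw [σ.injective h2, Finset.mem_filter] at hx'
      exact hx'.2
    funext x
    show lab ψ t (σ x) = lab ψ t x
    rcases h1 : lab ψ t x with _ | d
    · rcases h2 : lab ψ t (σ x) with _ | d
      · rfl
      · rw [key2 x d h2] at h1
        exact h1
    · exact key x d h1

theorem keeps_iff (ψ : Option (Γ × Bool) → n) (g : Γ) (σ : Perm n) :
    Keeps ψ g σ ↔ ∀ w, cls w = some g → ∃ w', ψ w' = σ (ψ w) ∧ cls w' = some g := by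
  unfold Keeps
  constructor
  · rintro ⟨h1, h2⟩ w hw
    rcases w with _ | ⟨g', b⟩
    · exact absurd hw (by simp [cls])
    · have : g' = g := by simpa [cls] using hw
      subst this
      cases b
      · rcases h1 with h1 | h1
        · exact ⟨_, h1.symm, rfl⟩
        · exact ⟨_, h1.symm, rfl⟩
      · rcases h2 with h2 | h2
        · exact ⟨_, h2.symm, rfl⟩
        · exact ⟨_, h2.symm, rfl⟩
  · intro h
    have key : ∀ w', cls w' = some g → w' = some (g, false) ∨ w' = some (g, true) := by
      intro w' hw'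
      rcases w' with _ | ⟨g', b⟩
      · exact absurd hw' (by simp [cls])
      · have : g' = g := by simpa [cls] using hw'
        subst this
        cases b
        · exact Or.inl rfl
        · exact Or.inr rfl
    obtain ⟨w1, h1, h2⟩ := h (some (g, false)) rfl
    obtain ⟨w2, h3, h4⟩ := h (some (g, true)) rfl
    refine ⟨?_, ?_⟩
    · rcases key w1 h2 with rfl | rfl
      · exact Or.inl h1.symm
      · exact Or.inr h1.symm
    · rcases key w2 h4 with rfl | rfl
      · exact Or.inl h3.symm
      · exact Or.inr h3.symm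

theorem fix_iff (ψ : Option (Γ × Bool) → n) (σ : Perm n) :
    σ (ψ none) = ψ none ↔ ∀ w, cls w = none → ∃ w', ψ w' = σ (ψ w) ∧ cls w' = none := by
  constructor
  · intro h w hw
    rcases w with _ | ⟨g', b⟩
    · exact ⟨none, h.symm, rfl⟩
    · exact absurd hw (by simp [cls])
  · intro h
    obtain ⟨w', h1, h2⟩ := h none rfl
    rcases w' with _ | ⟨g', b⟩
    · exact h1.symm
    · exact absurd h2 (by simp [cls])

theorem count0 (hψ : Function.Injective ψ) (s : Finset Γ) :
    (univ.filter fun σ : Perm n => ∀ g ∈ s, Keeps ψ g σ).card =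
      (Fintype.card n - 2 * s.card).factorial * 2 ^ s.card := by
  have h := count hψ (s.map Function.Embedding.some)
  rw [Finset.sum_map, Finset.prod_map] at h
  have h0 : ∀ x ∈ s, sz (Function.Embedding.some x) = 2 := fun _ _ => rfl
  have h0' : ∀ x ∈ s, (sz (Function.Embedding.some x)).factorial = 2 := fun _ _ => rfl
  have h1 : ∑ x ∈ s, sz (Function.Embedding.some x) = 2 * s.card := by
    rw [Finset.sum_congr rfl h0, Finset.sum_const, smul_eq_mul, mul_comm]
  have h2 : ∏ x ∈ s, (sz (Function.Embedding.some x)).factorial = 2 ^ s.card := by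
    rw [Finset.prod_congr rfl h0', Finset.prod_const]
  rw [h1, h2] at h
  rw [← h]
  congr 1
  ext σ
  rw [Finset.mem_filter, Finset.mem_filter, lab_iff hψ]
  simp only [Finset.mem_univ, true_and, Finset.mem_map, forall_exists_index, and_imp]
  constructor
  · rintro h3 d g hg rfl w hw
    exact (keeps_iff ψ g σ).1 (h3 g hg) w hw
  · intro h3 g hg
    exact (keeps_iff ψ g σ).2 fun w hw => h3 (some g) g hg rfl w hw

theorem count1 (hψ : Function.Injective ψ) (s : Finset Γ) :
    (univ.filter fun σ : Perm n => σ (ψ none) = ψ none ∧ ∀ g ∈ s, Keeps ψ g σ).card =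
      (Fintype.card n - 1 - 2 * s.card).factorial * 2 ^ s.card := by
  have hn : none ∉ s.map Function.Embedding.some := by simp
  have h := count hψ (insert none (s.map Function.Embedding.some))
  rw [Finset.sum_insert hn, Finset.prod_insert hn, Finset.sum_map, Finset.prod_map] at h
  have h0 : ∀ x ∈ s, sz (Function.Embedding.some x) = 2 := fun _ _ => rfl
  have h0' : ∀ x ∈ s, (sz (Function.Embedding.some x)).factorial = 2 := fun _ _ => rfl
  have h1 : ∑ x ∈ s, sz (Function.Embedding.some x) = 2 * s.card := by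
    rw [Finset.sum_congr rfl h0, Finset.sum_const, smul_eq_mul, mul_comm]
  have h2 : ∏ x ∈ s, (sz (Function.Embedding.some x)).factorial = 2 ^ s.card := by
    rw [Finset.prod_congr rfl h0', Finset.prod_const]
  have h3 : sz (none : Option Γ) = 1 := rfl
  rw [h1, h2, h3, Nat.factorial_one, one_mul, ← Nat.sub_sub] at h
  rw [← h]
  congr 1
  ext σ
  rw [Finset.mem_filter, Finset.mem_filter, lab_iff hψ]
  simp only [Finset.mem_univ, true_and, Finset.mem_insert, Finset.mem_map]
  constructor
  · rintro ⟨h0, h3⟩ d hd w hw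
    rcases hd with rfl | ⟨g, hg, rfl⟩
    · exact (fix_iff ψ σ).1 h0 w hw
    · exact (keeps_iff ψ g σ).1 (h3 g hg) w hw
  · intro h3
    exact ⟨(fix_iff ψ σ).2 fun w hw => h3 none (Or.inl rfl) w hw, fun g hg =>
      (keeps_iff ψ g σ).2 fun w hw => h3 (some g) (Or.inr ⟨g, hg, rfl⟩) w hw⟩

/-- value of the permanent -/
def F (N G : ℕ) (l m : ℤ) : ℤ :=
  ∑ j ∈ range (G + 1), (G.choose j : ℤ) * ((l ^ 2 * 2) ^ j *
    (((N - 2 * j).factorial : ℤ) + m * ((N - 1 - 2 * j).factorial : ℤ)))

/-- **The permanent.** -/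
theorem permanent_eq (h : IsPair ψ l m M) :
    M.permanent = F (Fintype.card n) (Fintype.card Γ) l m := by
  rw [perm_step h]
  have h1 : ∀ σ : Perm n, cc ψ m σ * ∏ g, (1 + l ^ 2 * z ψ g σ) =
      ∑ s ∈ (univ : Finset Γ).powerset, ((l ^ 2) ^ s.card *
        ((if ∀ g ∈ s, Keeps ψ g σ then 1 else 0) +
          m * (if σ (ψ none) = ψ none ∧ ∀ g ∈ s, Keeps ψ g σ then 1 else 0))) := by
    intro σ
    rw [Finset.prod_one_add, Finset.mul_sum]
    apply Finset.sum_congr rfl
    intro s _
    rw [Finset.prod_mul_distrib, Finset.prod_const]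
    simp only [z_eq h.inj]
    rw [Finset.prod_boole]
    unfold cc
    by_cases h2 : σ (ψ none) = ψ none
    · by_cases h3 : ∀ g ∈ s, Keeps ψ g σ
      · have h4 : σ (ψ none) = ψ none ∧ ∀ g ∈ s, Keeps ψ g σ := ⟨h2, h3⟩
        simp only [if_pos h2, if_pos h3, if_pos h4]
        ring
      · have h4 : ¬ (σ (ψ none) = ψ none ∧ ∀ g ∈ s, Keeps ψ g σ) := fun h5 => h3 h5.2
        simp only [if_pos h2, if_neg h3, if_neg h4]
        ring
    · have h4 : ¬ (σ (ψ none) = ψ none ∧ ∀ g ∈ s, Keeps ψ g σ) := fun h5 => h2 h5.1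
      simp only [if_neg h2, if_neg h4, mul_zero, add_zero, one_mul]
      congr
  simp only [h1]
  rw [Finset.sum_comm]
  have h2 : ∀ s ∈ (univ : Finset Γ).powerset, ∑ σ : Perm n, ((l ^ 2) ^ s.card *
        ((if ∀ g ∈ s, Keeps ψ g σ then (1 : ℤ) else 0) +
          m * (if σ (ψ none) = ψ none ∧ ∀ g ∈ s, Keeps ψ g σ then 1 else 0))) =
      (fun j : ℕ => (l ^ 2 * 2) ^ j * (((Fintype.card n - 2 * j).factorial : ℤ) +
        m * ((Fintype.card n - 1 - 2 * j).factorial : ℤ))) s.card := by
    intro s _
    rw [← Finset.mul_sum, Finset.sum_add_distrib, ← Finset.mul_sum, Finset.sum_boole,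
      Finset.sum_boole, count0 h.inj, count1 h.inj]
    push_cast
    ring
  rw [Finset.sum_congr rfl h2, Finset.sum_powerset_apply_card
    (fun j : ℕ => (l ^ 2 * 2) ^ j * (((Fintype.card n - 2 * j).factorial : ℤ) +
        m * ((Fintype.card n - 1 - 2 * j).factorial : ℤ)))]
  unfold F
  rw [Finset.card_univ]
  apply Finset.sum_congr rfl
  intro j _
  rw [nsmul_eq_mul]

end core

theorem permanent_submatrix {m n R : Type} [Fintype m] [DecidableEq m] [Fintype n] [DecidableEq n]
    [CommRing R] (e : m ≃ n) (M : Matrix n n R) : (M.submatrix e e).permanent = M.permanent := by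
  unfold Matrix.permanent
  rw [← Equiv.sum_comp (Equiv.permCongr e.symm)]
  apply Finset.sum_congr rfl
  intro τ _
  rw [← Equiv.prod_comp e (fun j => M (τ j) j)]
  apply Finset.prod_congr rfl
  intro i _
  simp [Equiv.permCongr_apply]

theorem permanent_map {n : Type} [Fintype n] [DecidableEq n] (M : Matrix n n ℤ) :
    (M.map (fun a : ℤ => (a : ℂ))).permanent = (M.permanent : ℂ) := by
  unfold Matrix.permanent
  push_cast
  rfl

section matrix

variable {Γ : Type} [Fintype Γ] [DecidableEq Γ]

/-- The matrix `J + l ∑ (e_a - e_b) (e_a - e_b)ᵀ` on `Option (Γ × Bool)`. -/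
def A (Γ : Type) [Fintype Γ] [DecidableEq Γ] (l : ℤ) :
    Matrix (Option (Γ × Bool)) (Option (Γ × Bool)) ℤ :=
  fun x y => 1 + l * ∑ g : Γ, dl id g x * dl id g y

theorem A_false (l : ℤ) (x : Option (Γ × Bool)) (g : Γ) :
    A Γ l x (some (g, false)) = 1 + l * dl id g x := by
  unfold A
  have h : ∀ h : Γ, dl id h x * dl id h (some (g, false)) = if h = g then dl id h x else 0 := by
    intro h
    have h1 := dl_false (ψ := (id : Option (Γ × Bool) → _)) Function.injective_id h g
    simp only [id] at h1
    rw [h1]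
    split_ifs <;> ring
  simp only [h]
  rw [Finset.sum_ite_eq', if_pos (Finset.mem_univ _)]

theorem A_true (l : ℤ) (x : Option (Γ × Bool)) (g : Γ) :
    A Γ l x (some (g, true)) = 1 - l * dl id g x := by
  unfold A
  have h : ∀ h : Γ, dl id h x * dl id h (some (g, true)) = if h = g then - dl id h x else 0 := by
    intro h
    have h1 := dl_true (ψ := (id : Option (Γ × Bool) → _)) Function.injective_id h g
    simp only [id] at h1
    rw [h1]
    split_ifs <;> ring
  simp only [h]
  rw [Finset.sum_ite_eq', if_pos (Finset.mem_univ _)]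
  ring

theorem A_none (l : ℤ) (x : Option (Γ × Bool)) : A Γ l x none = 1 := by
  unfold A
  have h : ∀ h : Γ, dl id h x * dl id h none = 0 := by
    intro h
    have h1 := dl_none (ψ := (id : Option (Γ × Bool) → _)) Function.injective_id h
    simp only [id] at h1
    rw [h1, mul_zero]
  simp only [h]
  simp

theorem A_none_left (l : ℤ) (x : Option (Γ × Bool)) : A Γ l none x = 1 := by
  unfold A
  have h : ∀ h : Γ, dl id h none * dl id h x = 0 := by
    intro h
    have h1 := dl_none (ψ := (id : Option (Γ × Bool) → _)) Function.injective_id h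
    simp only [id] at h1
    rw [h1, zero_mul]
  simp only [h]
  simp

theorem A_isPair (l : ℤ) : IsPair (id : Option (Γ × Bool) → _) l 0 (A Γ l) where
  inj := Function.injective_id
  h1 x g := A_false l x g
  h2 x g := A_true l x g
  h3 x := by
    rw [id, A_none]
    simp
  h4 x y hy := absurd ⟨y, rfl⟩ hy

/-- indices different from the first one and from `k` -/
abbrev T (k : Option (Γ × Bool)) : Type := {x : Option (Γ × Bool) // x ≠ none ∧ x ≠ k}

/-- the pairs in the index set of `B_kk` -/
def psi (g0 : Γ) (s0 : Bool) : Option ({g : Γ // g ≠ g0} × Bool) → T (some (g0, s0))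
  | none => ⟨some (g0, !s0), by simp, by simp⟩
  | some (g, s) => ⟨some (g.1, s), by simp, by simp [g.2]⟩

theorem psi_inj (g0 : Γ) (s0 : Bool) : Function.Injective (psi g0 s0) := by
  intro x y h
  have h1 := congrArg Subtype.val h
  rcases x with _ | ⟨⟨g, hg⟩, s⟩ <;> rcases y with _ | ⟨⟨g', hg'⟩, s'⟩
  · rfl
  · simp only [psi, Option.some.injEq, Prod.mk.injEq] at h1
    exact absurd h1.1.symm hg'
  · simp only [psi, Option.some.injEq, Prod.mk.injEq] at h1
    exact absurd h1.1 hg
  · simp only [psi, Option.some.injEq, Prod.mk.injEq] at h1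
    obtain ⟨rfl, rfl⟩ := h1
    rfl

theorem dl_psi (g0 : Γ) (s0 : Bool) (g : {g : Γ // g ≠ g0}) (x : T (some (g0, s0))) :
    dl (psi g0 s0) g x = dl id g.1 x.1 := by
  unfold dl
  have h1 : x = psi g0 s0 (some (g, false)) ↔ x.1 = id (some (g.1, false)) := by
    rw [Subtype.ext_iff]
    rfl
  have h2 : x = psi g0 s0 (some (g, true)) ↔ x.1 = id (some (g.1, true)) := by
    rw [Subtype.ext_iff]
    rfl
  simp only [h1, h2]

theorem B_isPair (l : ℤ) (g0 : Γ) (s0 : Bool) :
    IsPair (psi g0 s0) l l ((A Γ l).submatrix (fun i : T (some (g0, s0)) => i.1) fun i => i.1) where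
  inj := psi_inj g0 s0
  h1 x g := by
    rw [dl_psi]
    exact A_false l x.1 g.1
  h2 x g := by
    rw [dl_psi]
    exact A_true l x.1 g.1
  h3 x := by
    have h1 : x = psi g0 s0 none ↔ x.1 = some (g0, !s0) := by
      rw [Subtype.ext_iff]
      rfl
    simp only [h1]
    show A Γ l x.1 (some (g0, !s0)) = _
    have hx := x.2.2
    cases s0
    · rw [Bool.not_false, A_true]
      unfold dl
      rw [if_neg (show ¬ x.1 = id (some (g0, false)) from hx)]
      simp only [id]
      split_ifs <;> ring
    · rw [Bool.not_true, A_false]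
      unfold dl
      rw [if_neg (show ¬ x.1 = id (some (g0, true)) from hx)]
      simp only [id]
      split_ifs <;> ring
  h4 x y hy := by
    exfalso
    apply hy
    obtain ⟨y, hy1, hy2⟩ := y
    rcases y with _ | ⟨g, s⟩
    · exact absurd rfl hy1
    · by_cases hg : g = g0
      · subst hg
        have hs : s = !s0 := by
          rcases s <;> rcases s0 <;> first | rfl | exact absurd rfl hy2
        subst hs
        exact ⟨none, rfl⟩
      · exact ⟨some (⟨g, hg⟩, s), rfl⟩

end matrix

theorem card_T : ∀ k : Fin 20 × Bool, Fintype.card (T (some k)) = 39 := by decide +kernel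

theorem card_G : ∀ g0 : Fin 20, Fintype.card {g : Fin 20 // g ≠ g0} = 19 := by decide +kernel

theorem permA : (A (Fin 20) 17).permanent = F 41 20 17 0 := by
  rw [permanent_eq (A_isPair 17)]
  simp

theorem permB (k : Option (Fin 20 × Bool)) (hk : k ≠ none) :
    ((A (Fin 20) 17).submatrix (fun i : T k => i.1) fun i => i.1).permanent = F 39 19 17 17 := by
  rcases k with _ | ⟨g0, s0⟩
  · exact absurd rfl hk
  · rw [permanent_eq (B_isPair 17 g0 s0), card_T, card_G]

theorem numeric : F 41 20 17 0 < 40 * F 39 19 17 17 := by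
  unfold F
  decide +kernel

/-! ### Positive semidefiniteness -/

theorem psd : ((A (Fin 20) 17).map fun a : ℤ => (a : ℂ)).PosSemidef := by
  have h : ((A (Fin 20) 17).map fun a : ℤ => (a : ℂ)) =
      Matrix.vecMulVec (fun _ => (1 : ℂ)) (star fun _ => (1 : ℂ)) +
        ∑ g : Fin 20, (17 : ℝ) • Matrix.vecMulVec (fun x => ((dl id g x : ℤ) : ℂ))
          (star fun x => ((dl id g x : ℤ) : ℂ)) := by
    ext x y
    rw [Matrix.add_apply, Matrix.sum_apply]
    simp only [Matrix.map_apply, A, Matrix.smul_apply, Matrix.vecMulVec_apply, Pi.star_apply,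
      star_one, mul_one]
    push_cast
    rw [Finset.mul_sum]
    congr 1
    apply Finset.sum_congr rfl
    intro g _
    have h1 : star ((dl id g y : ℤ) : ℂ) = ((dl id g y : ℤ) : ℂ) := by simp
    rw [h1]
    simp
  rw [h]
  refine (Matrix.posSemidef_vecMulVec_self_star _).add (Matrix.posSemidef_sum _ fun g _ => ?_)
  exact (Matrix.posSemidef_vecMulVec_self_star _).smul (by norm_num)

/-- an enumeration of the index set which begins with the first index -/
noncomputable def en : Fin 41 ≃ Option (Fin 20 × Bool) :=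
  (finSuccEquiv 40).trans (Equiv.optionCongr (Fintype.equivOfCardEq (by simp)))

theorem en_zero : en 0 = none := by
  unfold en
  simp

theorem en_ne {k : Fin 41} (hk : k ≠ 0) : en k ≠ none := by
  intro h
  exact hk (en.injective (h.trans en_zero.symm))

/-- **Main theorem.** There is a complex positive semidefinite matrix `A` of size `41` (with real
entries) such that `∑_{k ≠ 1} |a_{1k}|² per (B_kk) > per A`. Here `B_kk` is the principal submatrix of
`A` on the indices different from the first one and from `k`; `p` and `q k` are the values of `per A`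
and of `per (B_kk)`, which are real numbers. -/
theorem result : ∃ A : Matrix (Fin 41) (Fin 41) ℂ, A.PosSemidef ∧ ∃ (p : ℝ) (q : Fin 41 → ℝ),
    A.permanent = p ∧
    (∀ k ≠ 0, (A.submatrix (fun i : {i : Fin 41 // i ≠ 0 ∧ i ≠ k} => i.1) fun i => i.1).permanent
      = q k) ∧
    p < ∑ k ∈ univ.erase 0, ‖A 0 k‖ ^ 2 * q k := by
  refine ⟨((A (Fin 20) 17).map fun a : ℤ => (a : ℂ)).submatrix en en, psd.submatrix en,
    (F 41 20 17 0 : ℤ), fun _ => (F 39 19 17 17 : ℤ), ?_, ?_, ?_⟩
  · rw [permanent_submatrix, permanent_map, permA]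
    push_cast
    rfl
  · intro k hk
    have hp : ∀ a : Fin 41, (a ≠ 0 ∧ a ≠ k) ↔ (en a ≠ none ∧ en a ≠ en k) := by
      intro a
      rw [← en_zero, en.injective.ne_iff, en.injective.ne_iff]
    obtain ⟨e, he⟩ : ∃ e : {i : Fin 41 // i ≠ 0 ∧ i ≠ k} ≃ T (en k), ∀ i, (e i).1 = en i.1 :=
      ⟨Equiv.subtypeEquiv (p := fun i => i ≠ 0 ∧ i ≠ k) (q := fun x => x ≠ none ∧ x ≠ en k) en hp,
        fun _ => rfl⟩
    have key : ((((A (Fin 20) 17).map fun a : ℤ => (a : ℂ)).submatrix en en).submatrix
        (fun i : {i : Fin 41 // i ≠ 0 ∧ i ≠ k} => i.1) fun i => i.1) =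
        ((((A (Fin 20) 17).submatrix (fun i : T (en k) => i.1) fun i => i.1).map
          fun a : ℤ => (a : ℂ)).submatrix e e) := by
      ext i j
      simp only [Matrix.submatrix_apply, Matrix.map_apply, he]
    rw [key, permanent_submatrix, permanent_map, permB _ (en_ne hk)]
    push_cast
    rfl
  · have h1 : ∀ k ∈ univ.erase (0 : Fin 41), ‖((A (Fin 20) 17).map fun a : ℤ => (a : ℂ)).submatrix
        en en 0 k‖ ^ 2 * ((F 39 19 17 17 : ℤ) : ℝ) = ((F 39 19 17 17 : ℤ) : ℝ) := by
      intro k _
      rw [Matrix.submatrix_apply, Matrix.map_apply, en_zero, A_none_left]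
      simp
    rw [Finset.sum_congr rfl h1, Finset.sum_const, Finset.card_erase_of_mem (Finset.mem_univ _),
      Finset.card_univ, Fintype.card_fin]
    have := numeric
    simp only [nsmul_eq_mul]
    exact_mod_cast this

end Pool.Agent.Results.MP_395ab6_co.NotDominated
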